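import Pool.Agent.Y834.BF.Uni2

/-!
# The apparent rank of an elliptic curve is normally distributed below the conductor

For the curve `E : y² = x³ + a x + b`, `Δ = -16(4a³+27b²)`, let

`S(x) = (log x)⁻¹ ∑_{p ≤ x, p ∤ Δ} a_p log p / p`.

By the results quoted in the problem, `S(x) → 1/2 - r` is equivalent to the asymptotic of Q1, so
that `1/2 - S(x)` is the rank which is read off from the primes up to `x`.  It is shown,
unconditionally, that below the conductor `S(x)` is normally distributed over the elliptic curves over `ℚ`, with mean `0` and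
variance `1/2` (so the apparent rank is normally distributed with mean `1/2` and variance `1/2`):
for every real `t` the proportion of the pairs `a, b`, `0 < |a| ≤ A`, `M < b ≤ M + H`, with
`S(x) ≤ t` tends to `π^{-1/2} ∫_{-∞}^t e^{-u²} du` as `x → ∞` and `log H / log x → ∞`, uniformly in
`A ≥ 1` and `M`.  The same holds for each single `a`.

Moments of every order on intervals are compared with those of a product model; the local
variances are `(1 + O(1/p))/p` by a point count on conics, and `∑ (log p)²/p = (1/2)(log x)² +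
O(log x)`.
-/

set_option autoImplicit false

namespace Pool.Agent.Results.MP_ad1693_nt.ApparentRankLaw

open Finset

/-- `a_p = p + 1 - N_p` for `E : y² = x³ + a x + b` and `p ∤ Δ`: `p` minus the number of affine
points. -/
noncomputable def trace (a b : ℤ) (p : ℕ) : ℝ :=
  (p : ℝ) - (Nat.card {q : ZMod p × ZMod p //
    q.2 ^ 2 = q.1 ^ 3 + (a : ZMod p) * q.1 + (b : ZMod p)} : ℝ)

/-- `S(x) = (log x)⁻¹ ∑ a_p log p / p` over the primes `p ≤ x` with `p ∤ Δ = -16(4a³+27b²)`. -/
noncomputable def S (a b : ℤ) (x : ℕ) : ℝ :=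
  (∑ p ∈ (Ioc 0 x).filter (fun p : ℕ => p.Prime ∧ ¬ ((p : ℤ) ∣ 16 * (4 * a ^ 3 + 27 * b ^ 2))),
    trace a b p * Real.log p / p) / Real.log x

/-- the sum of `log p / p` over the prime divisors `p` of `a` -/
noncomputable def primeSum (a : ℤ) : ℝ := ∑ p ∈ a.natAbs.primeFactors, Real.log p / (p : ℝ)

open Classical in
/-- the number of `b` in `(M, M + H]` with the property `T` -/
noncomputable def count (M : ℤ) (H : ℕ) (T : ℤ → Prop) : ℝ :=
  (((Ioc M (M + H)).filter T).card : ℝ)

/-- the number of pairs `a, b` with `0 < |a| ≤ A`, `M < b ≤ M + H` and the property `T` -/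
noncomputable def countPairs (A : ℕ) (M : ℤ) (H : ℕ) (T : ℤ → ℤ → Prop) : ℝ :=
  ∑ a ∈ (Icc (-(A : ℤ)) A).filter (fun a => a ≠ 0), count M H (T a)

/-- `S(x) ≤ t` for the curve `y² = x³ + a x + b` -/
def Below (t : ℝ) (x : ℕ) (a b : ℤ) : Prop := S a b x ≤ t

/-- the distribution function of the normal law with mean `0` and variance `1/2` -/
noncomputable def normal (t : ℝ) : ℝ :=
  (ProbabilityTheory.gaussianReal 0 (1 / 2)).real (Set.Iic t)

lemma S_eq (a b : ℤ) (x : ℕ) : S a b x = Pool.Agent.Y834.BF.RR a b x := rfl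

lemma count_nonneg (M : ℤ) (H : ℕ) (T : ℤ → Prop) : 0 ≤ count M H T := by
  unfold count
  positivity

lemma count_le (M : ℤ) (H : ℕ) (T : ℤ → Prop) : count M H T ≤ H := by
  classical
  unfold count
  have h := card_le_card (filter_subset T (Ioc M (M + H)))
  rw [Pool.Agent.Y834.BF.card_Ioc_H] at h
  exact_mod_cast h

/-- **The apparent rank is normally distributed below the conductor.** -/
theorem result :
    (∀ t ε : ℝ, 0 < ε → ∃ X₀ : ℕ, ∀ x : ℕ, X₀ ≤ x → ∀ (A : ℕ) (M : ℤ) (H : ℕ), 1 ≤ A →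
      x ^ X₀ ≤ H → |countPairs A M H (Below t x) / (2 * A * H) - normal t| ≤ ε) ∧
    (∀ κ t ε : ℝ, 0 < ε → ∃ X₀ : ℕ, ∀ x : ℕ, X₀ ≤ x → ∀ a : ℤ, a ≠ 0 → primeSum a ≤ κ →
      ∀ (M : ℤ) (H : ℕ), x ^ X₀ ≤ H → |count M H (Below t x a) / H - normal t| ≤ ε) := by
  classical
  have h1 : ∀ κ t ε : ℝ, 0 < ε → ∃ X₀ : ℕ, ∀ x : ℕ, X₀ ≤ x → ∀ a : ℤ, a ≠ 0 → primeSum a ≤ κ →
      ∀ (M : ℤ) (H : ℕ), x ^ X₀ ≤ H → |count M H (Below t x a) / H - normal t| ≤ ε := by
    intro κ t ε hε
    obtain ⟨X₀, -, hX⟩ := Pool.Agent.Y834.BF.clt2 (le_max_right κ 0) t hε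
    refine ⟨X₀, fun x hx a ha hκ M H hH => ?_⟩
    have h2 := hX x hx a ha
      (show Pool.Agent.Y834.BF.oml a ≤ max κ 0 from hκ.trans (le_max_left _ _)) M H hH
    rw [Pool.Agent.Y834.BF.emp_real M _ measurableSet_Iic] at h2
    have h3 : ∀ b : ℤ, Below t x a b ↔ Pool.Agent.Y834.BF.RR a b x ∈ Set.Iic t := fun b => Iff.rfl
    unfold count normal
    simp only [h3]
    exact h2
  refine ⟨?_, h1⟩
  intro t ε hε
  obtain ⟨C, hC0, hC⟩ := Pool.Agent.Y834.BF.bad_a2
  obtain ⟨X₀, hX⟩ := h1 (2 * C / ε) t (ε / 2) (by positivity)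
  refine ⟨X₀ + 1, fun x hx A M H hA hH => ?_⟩
  have hH0 : 0 < H := by
    have h2 : 0 < x := by omega
    have h3 : 0 < x ^ (X₀ + 1) := by positivity
    omega
  have hHX : x ^ X₀ ≤ H := (Nat.pow_le_pow_right (by omega) (by omega)).trans hH
  have hHr : (0 : ℝ) < H := by exact_mod_cast hH0
  have hAr : (0 : ℝ) < A := by exact_mod_cast hA
  have hcard := Pool.Agent.Y834.BF.card_nz A
  have hbad := hC A (2 * C / ε) (by positivity)
  have hn0 : 0 ≤ normal t := by
    unfold normal
    exact MeasureTheory.measureReal_nonneg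
  have hn1 : normal t ≤ 1 := by
    unfold normal
    exact MeasureTheory.measureReal_le_one
  have e0 : countPairs A M H (Below t x) / (2 * A * H) - normal t =
      (∑ a ∈ Pool.Agent.Y834.BF.nz A, (count M H (Below t x a) / H - normal t)) / (2 * A) := by
    rw [sum_sub_distrib, sum_const, hcard, nsmul_eq_mul, ← sum_div]
    change (∑ a ∈ Pool.Agent.Y834.BF.nz A, count M H (Below t x a)) / (2 * A * H) - normal t = _
    push_cast
    field_simp
  rw [e0, abs_div, abs_of_pos (by positivity : (0 : ℝ) < 2 * A), div_le_iff₀ (by positivity)]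
  refine (abs_sum_le_sum_abs _ _).trans ?_
  rw [← sum_filter_add_sum_filter_not (Pool.Agent.Y834.BF.nz A)
    (fun a => 2 * C / ε < Pool.Agent.Y834.BF.oml a)]
  have e1 : ∑ a ∈ (Pool.Agent.Y834.BF.nz A).filter (fun a => 2 * C / ε < Pool.Agent.Y834.BF.oml a),
      |count M H (Below t x a) / H - normal t| ≤ ε * A := by
    have e2 : ∀ a ∈ (Pool.Agent.Y834.BF.nz A).filter
        (fun a => 2 * C / ε < Pool.Agent.Y834.BF.oml a),
        |count M H (Below t x a) / H - normal t| ≤ 1 := by
      intro a _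
      have e3 : count M H (Below t x a) / H ≤ 1 := by
        rw [div_le_one hHr]
        exact count_le M H _
      have e4 : 0 ≤ count M H (Below t x a) / H := div_nonneg (count_nonneg M H _) hHr.le
      rw [abs_le]
      constructor <;> linarith
    refine (sum_le_sum e2).trans ?_
    rw [sum_const, nsmul_eq_mul, mul_one]
    refine hbad.trans (le_of_eq ?_)
    field_simp
  have e2 : ∑ a ∈ (Pool.Agent.Y834.BF.nz A).filter
      (fun a => ¬ (2 * C / ε < Pool.Agent.Y834.BF.oml a)),
      |count M H (Below t x a) / H - normal t| ≤ ε * A := by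
    calc _ ≤ ∑ a ∈ (Pool.Agent.Y834.BF.nz A).filter
          (fun a => ¬ (2 * C / ε < Pool.Agent.Y834.BF.oml a)), (ε / 2 : ℝ) := by
          refine sum_le_sum fun a ha => ?_
          rw [mem_filter, Pool.Agent.Y834.BF.mem_nz] at ha
          exact hX x (by omega) a ha.1.1 (not_lt.1 ha.2) M H hHX
      _ = (((Pool.Agent.Y834.BF.nz A).filter
          (fun a => ¬ (2 * C / ε < Pool.Agent.Y834.BF.oml a))).card : ℝ) * (ε / 2) := by
          rw [sum_const, nsmul_eq_mul]
      _ ≤ ((2 * A : ℕ) : ℝ) * (ε / 2) := by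
          refine mul_le_mul_of_nonneg_right ?_ (by positivity)
          rw [← hcard]
          exact_mod_cast card_le_card (filter_subset _ _)
      _ = ε * A := by
          push_cast
          ring
  calc _ ≤ ε * A + ε * A := add_le_add e1 e2
    _ = ε * (2 * A) := by ring

end Pool.Agent.Results.MP_ad1693_nt.ApparentRankLaw
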