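import Pool.Agent.Y834.BF.Uni

/-!
# The product of Birch and Swinnerton-Dyer is log-normal below a power of the conductor

Let `P(x) = ∏_{p ≤ x, p ∤ Δ} N_p/p` be the original product of Birch and Swinnerton-Dyer of the
curve `E : y² = x³ + a x + b`, `Δ = -16(4a³+27b²)`.  The asymptotic of Q1 is
`log P(x) = r log log x + log C_E + o(1)`.  It is shown, unconditionally, that below a power of the
conductor the logarithm of the product is normally distributed over the elliptic curves over `ℚ`,
with mean `(1/2) log log x` and variance `log log x`: for every real `t`, the proportion of the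
pairs `a, b`, `0 < |a| ≤ A`, `M < b ≤ M + H` with

`log P(x) ≤ (1/2) log log x + t √(log log x)`

tends to `(2π)^{-1/2} ∫_{-∞}^t e^{-u²/2} du` as `x → ∞`, uniformly in `A ≥ 1`, `M` and
`H ≥ 2 x¹²`.  The same holds for each single `a` (uniformly as long as the sum of the reciprocals of
the prime divisors of `a` is bounded).

The moments of the sums truncated at a small power of `x` are compared with those of a product
model, characteristic functions are expanded to a degree which grows with the required precision,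
and the remaining primes and the primes of bad reduction are treated on average.
-/

set_option autoImplicit false

namespace Pool.Agent.Results.MP_ad1693_nt.NormalLaw

open Finset

/-- `N_p` for `E : y² = x³ + a x + b` and `p ∤ Δ`: the affine points and the point at infinity. -/
noncomputable def points (a b : ℤ) (p : ℕ) : ℕ :=
  Nat.card {q : ZMod p × ZMod p // q.2 ^ 2 = q.1 ^ 3 + (a : ZMod p) * q.1 + (b : ZMod p)} + 1

/-- `P(x)`, the product of `N_p / p` over the primes `p ≤ x` with `p ∤ Δ = -16(4a³+27b²)`. -/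
noncomputable def product (a b : ℤ) (x : ℕ) : ℝ :=
  ∏ p ∈ (Ioc 0 x).filter (fun p : ℕ => p.Prime ∧ ¬ ((p : ℤ) ∣ 16 * (4 * a ^ 3 + 27 * b ^ 2))),
    (points a b p : ℝ) / p

/-- `log log x` -/
noncomputable def loglog (x : ℕ) : ℝ := Real.log (Real.log x)

/-- the sum of the reciprocals of the prime divisors of `a` -/
noncomputable def primeSum (a : ℤ) : ℝ := ∑ p ∈ a.natAbs.primeFactors, 1 / (p : ℝ)

open Classical in
/-- the number of `b` in `(M, M + H]` with the property `S` -/
noncomputable def count (M : ℤ) (H : ℕ) (S : ℤ → Prop) : ℝ :=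
  (((Ioc M (M + H)).filter S).card : ℝ)

/-- the number of pairs `a, b` with `0 < |a| ≤ A`, `M < b ≤ M + H` and the property `S` -/
noncomputable def countPairs (A : ℕ) (M : ℤ) (H : ℕ) (S : ℤ → ℤ → Prop) : ℝ :=
  ∑ a ∈ (Icc (-(A : ℤ)) A).filter (fun a => a ≠ 0), count M H (S a)

/-- `log P(x) ≤ (1/2) log log x + t √(log log x)` -/
def Below (t : ℝ) (x : ℕ) (a b : ℤ) : Prop :=
  Real.log (product a b x) ≤ 1 / 2 * loglog x + t * √(loglog x)

/-- the distribution function of the standard normal law -/
noncomputable def normal (t : ℝ) : ℝ := (ProbabilityTheory.gaussianReal 0 1).real (Set.Iic t)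

lemma product_eq (a b : ℤ) (x : ℕ) : product a b x = Pool.Agent.Y834.BF.bsd a b x := by
  unfold product Pool.Agent.Y834.BF.bsd
  refine prod_congr rfl fun p _ => ?_
  unfold points Pool.Agent.Y834.BF.aff
  push_cast
  rfl

lemma count_nonneg (M : ℤ) (H : ℕ) (S : ℤ → Prop) : 0 ≤ count M H S := by
  unfold count
  positivity

lemma count_le (M : ℤ) (H : ℕ) (S : ℤ → Prop) : count M H S ≤ H := by
  classical
  unfold count
  have h := card_le_card (filter_subset S (Ioc M (M + H)))
  rw [Pool.Agent.Y834.BF.card_Ioc_H] at h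
  exact_mod_cast h

lemma loglog_pos {x : ℕ} (hx : 3 ≤ x) : 0 < loglog x := by
  unfold loglog
  have hx3 : (3 : ℝ) ≤ x := by exact_mod_cast hx
  refine Real.log_pos ?_
  rw [Real.lt_log_iff_exp_lt (by linarith)]
  have := Real.exp_one_lt_d9
  linarith

/-- **The product of Birch and Swinnerton-Dyer is log-normal below a power of the conductor.** -/
theorem result :
    (∀ t ε : ℝ, 0 < ε → ∃ X₀ : ℕ, ∀ x : ℕ, X₀ ≤ x → ∀ (A : ℕ) (M : ℤ) (H : ℕ), 1 ≤ A →
      2 * x ^ 12 ≤ H → |countPairs A M H (Below t x) / (2 * A * H) - normal t| ≤ ε) ∧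
    (∀ κ t ε : ℝ, 0 < ε → ∃ X₀ : ℕ, ∀ x : ℕ, X₀ ≤ x → ∀ a : ℤ, a ≠ 0 → primeSum a ≤ κ →
      ∀ (M : ℤ) (H : ℕ), 2 * x ^ 12 ≤ H → |count M H (Below t x a) / H - normal t| ≤ ε) := by
  classical
  have h1 : ∀ κ t ε : ℝ, 0 < ε → ∃ X₀ : ℕ, ∀ x : ℕ, X₀ ≤ x → ∀ a : ℤ, a ≠ 0 → primeSum a ≤ κ →
      ∀ (M : ℤ) (H : ℕ), 2 * x ^ 12 ≤ H → |count M H (Below t x a) / H - normal t| ≤ ε := by
    intro κ t ε hε
    obtain ⟨X₀, hX⟩ := Pool.Agent.Y834.BF.clt (le_max_right κ 0) t hε
    refine ⟨X₀ + 3, fun x hx a ha hκ M H hH => ?_⟩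
    have h2 := hX x (by omega) a ha
      (show Pool.Agent.Y834.BF.om a ≤ max κ 0 from hκ.trans (le_max_left _ _)) M H hH
    rw [Pool.Agent.Y834.BF.emp_real M _ measurableSet_Iic] at h2
    have h3 : ∀ b : ℤ, Below t x a b ↔ (Real.log (Pool.Agent.Y834.BF.bsd a b x) -
        1 / 2 * Real.log (Real.log x)) / Real.sqrt (Real.log (Real.log x)) ∈ Set.Iic t := by
      intro b
      have h4 : 0 < √(loglog x) := Real.sqrt_pos.2 (loglog_pos (by omega))
      change _ ↔ (Real.log (Pool.Agent.Y834.BF.bsd a b x) - 1 / 2 * loglog x) /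
        √(loglog x) ≤ t
      rw [div_le_iff₀ h4, ← product_eq]
      unfold Below
      constructor <;> intro h <;> linarith
    unfold count normal
    simp only [h3]
    exact h2
  refine ⟨?_, h1⟩
  intro t ε hε
  obtain ⟨X₀, hX⟩ := h1 (2 / ε) t (ε / 2) (by positivity)
  refine ⟨X₀ + 1, fun x hx A M H hA hH => ?_⟩
  have hH0 : 0 < H := by
    have h2 : 0 < x := by omega
    have h3 : 0 < x ^ 12 := by positivity
    omega
  have hHr : (0 : ℝ) < H := by exact_mod_cast hH0
  have hAr : (0 : ℝ) < A := by exact_mod_cast hA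
  have hcard := Pool.Agent.Y834.BF.card_nz A
  have hbad := Pool.Agent.Y834.BF.bad_a A (κ := 2 / ε) (by positivity)
  have hn0 : 0 ≤ normal t := by
    unfold normal
    exact MeasureTheory.measureReal_nonneg
  have hn1 : normal t ≤ 1 := by
    unfold normal
    exact MeasureTheory.measureReal_le_one
  have e0 : countPairs A M H (Below t x) / (2 * A * H) - normal t =
      (∑ a ∈ Pool.Agent.Y834.BF.nz A, (count M H (Below t x a) / H - normal t)) / (2 * A) := by
    rw [sum_sub_distrib, sum_const, hcard, nsmul_eq_mul, ← sum_div]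
    change (∑ a ∈ Pool.Agent.Y834.BF.nz A, count M H (Below t x a)) / (2 * A * H) - normal t = _
    push_cast
    field_simp
  rw [e0, abs_div, abs_of_pos (by positivity : (0 : ℝ) < 2 * A), div_le_iff₀ (by positivity)]
  refine (abs_sum_le_sum_abs _ _).trans ?_
  rw [← sum_filter_add_sum_filter_not (Pool.Agent.Y834.BF.nz A)
    (fun a => 2 / ε < Pool.Agent.Y834.BF.om a)]
  have e1 : ∑ a ∈ (Pool.Agent.Y834.BF.nz A).filter (fun a => 2 / ε < Pool.Agent.Y834.BF.om a),
      |count M H (Below t x a) / H - normal t| ≤ ε * A := by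
    have e2 : ∀ a ∈ (Pool.Agent.Y834.BF.nz A).filter
        (fun a => 2 / ε < Pool.Agent.Y834.BF.om a),
        |count M H (Below t x a) / H - normal t| ≤ 1 := by
      intro a _
      have e3 : count M H (Below t x a) / H ≤ 1 := by
        rw [div_le_one hHr]
        exact count_le M H _
      have e4 : 0 ≤ count M H (Below t x a) / H := div_nonneg (count_nonneg M H _) hHr.le
      rw [abs_le]
      constructor <;> linarith
    refine (sum_le_sum e2).trans ?_
    rw [sum_const, nsmul_eq_mul, mul_one]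
    refine hbad.trans (le_of_eq ?_)
    field_simp
  have e2 : ∑ a ∈ (Pool.Agent.Y834.BF.nz A).filter
      (fun a => ¬ (2 / ε < Pool.Agent.Y834.BF.om a)),
      |count M H (Below t x a) / H - normal t| ≤ ε * A := by
    calc _ ≤ ∑ a ∈ (Pool.Agent.Y834.BF.nz A).filter
          (fun a => ¬ (2 / ε < Pool.Agent.Y834.BF.om a)), (ε / 2 : ℝ) := by
          refine sum_le_sum fun a ha => ?_
          rw [mem_filter, Pool.Agent.Y834.BF.mem_nz] at ha
          exact hX x (by omega) a ha.1.1 (not_lt.1 ha.2) M H hH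
      _ = (((Pool.Agent.Y834.BF.nz A).filter
          (fun a => ¬ (2 / ε < Pool.Agent.Y834.BF.om a))).card : ℝ) * (ε / 2) := by
          rw [sum_const, nsmul_eq_mul]
      _ ≤ ((2 * A : ℕ) : ℝ) * (ε / 2) := by
          refine mul_le_mul_of_nonneg_right ?_ (by positivity)
          rw [← hcard]
          exact_mod_cast card_le_card (filter_subset _ _)
      _ = ε * A := by
          push_cast
          ring
  calc _ ≤ ε * A + ε * A := add_le_add e1 e2
    _ = ε * (2 * A) := by ring

end Pool.Agent.Results.MP_ad1693_nt.NormalLaw
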