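import Pool.Agent.Y834.BF.Osc

/-!
# The apparent rank of almost every elliptic curve oscillates between arbitrarily large limits

For the curve `E : y² = x³ + a x + b`, `Δ = -16(4a³+27b²)`, let

`S(x) = (log x)⁻¹ ∑_{p ≤ x, p ∤ Δ} a_p log p / p`.

By the results quoted in the problem, `S(x) → 1/2 - r` for every fixed curve is what Q1 asks for.
It is shown, unconditionally, that for all `T`, `X₀` and `δ > 0` there is `X₁` such that, for all
elliptic curves over `ℚ` but a proportion `δ`, `S(x) > T` and `S(y) < -T` for some `x, y` in the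
fixed interval `[X₀, X₁]`.  So the convergence in Q1 can not be seen at bounded height for more than
an arbitrarily small proportion of the curves: the curves with `|S(x)| ≤ T` for all `x ≥ X₀` have
density zero, for each `T` and `X₀`.  The same holds for the curves with a single `a`.

The proof uses the limit law of `S(x)` and the independence of blocks of primes: in the sequence
`x₁ < x₂ < …` with `log x_{j+1} ≥ 4 x_j log x_j` the primes up to `x_j` do not contribute to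
`S(x_{j+1})`, which is, up to the primes of bad reduction, a function on another modulus.
-/

set_option autoImplicit false

namespace Pool.Agent.Results.MP_ad1693_nt.Oscillation

open Finset

/-- `a_p = p + 1 - N_p` for `E : y² = x³ + a x + b` and `p ∤ Δ`: `p` minus the number of affine
points. -/
noncomputable def trace (a b : ℤ) (p : ℕ) : ℝ :=
  (p : ℝ) - (Nat.card {q : ZMod p × ZMod p //
    q.2 ^ 2 = q.1 ^ 3 + (a : ZMod p) * q.1 + (b : ZMod p)} : ℝ)

/-- `S(x) = (log x)⁻¹ ∑ a_p log p / p` over the primes `p ≤ x` with `p ∤ Δ = -16(4a³+27b²)`. -/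
noncomputable def S (a b : ℤ) (x : ℕ) : ℝ :=
  (∑ p ∈ (Ioc 0 x).filter (fun p : ℕ => p.Prime ∧ ¬ ((p : ℤ) ∣ 16 * (4 * a ^ 3 + 27 * b ^ 2))),
    trace a b p * Real.log p / p) / Real.log x

/-- the sum of `log p / p` over the prime divisors `p` of `a` -/
noncomputable def primeSum (a : ℤ) : ℝ := ∑ p ∈ a.natAbs.primeFactors, Real.log p / (p : ℝ)

open Classical in
/-- the number of `b` in `(M, M + H]` with the property `T` -/
noncomputable def count (M : ℤ) (H : ℕ) (T : ℤ → Prop) : ℝ :=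
  (((Ioc M (M + H)).filter T).card : ℝ)

/-- the number of pairs `a, b` with `0 < |a| ≤ A`, `M < b ≤ M + H` and the property `T` -/
noncomputable def countPairs (A : ℕ) (M : ℤ) (H : ℕ) (T : ℤ → ℤ → Prop) : ℝ :=
  ∑ a ∈ (Icc (-(A : ℤ)) A).filter (fun a => a ≠ 0), count M H (T a)

/-- `S(x) > T` and `S(y) < -T` for some `x` and `y` with `X₀ ≤ x, y ≤ X₁`, for the curve
`y² = x³ + a x + b` -/
def Oscillates (T : ℝ) (X₀ X₁ : ℕ) (a b : ℤ) : Prop :=
  (∃ x : ℕ, X₀ ≤ x ∧ x ≤ X₁ ∧ T < S a b x) ∧ (∃ y : ℕ, X₀ ≤ y ∧ y ≤ X₁ ∧ S a b y < -T)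

lemma S_eq (a b : ℤ) (x : ℕ) : S a b x = Pool.Agent.Y834.BF.RR a b x := rfl

lemma count_nonneg (M : ℤ) (H : ℕ) (T : ℤ → Prop) : 0 ≤ count M H T := by
  unfold count
  positivity

lemma count_le (M : ℤ) (H : ℕ) (T : ℤ → Prop) : count M H T ≤ H := by
  classical
  unfold count
  have h := card_le_card (filter_subset T (Ioc M (M + H)))
  rw [Pool.Agent.Y834.BF.card_Ioc_H] at h
  exact_mod_cast h

/-- **The apparent rank of almost every curve oscillates between arbitrarily large limits.** -/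
theorem result :
    (∀ (T δ : ℝ) (X₀ : ℕ), 0 < δ → ∃ X₁ H₀ : ℕ, ∀ (A : ℕ) (M : ℤ) (H : ℕ), H₀ ≤ H →
      countPairs A M H (fun a b => ¬ Oscillates T X₀ X₁ a b) ≤ δ * (2 * A * H)) ∧
    (∀ (κ T δ : ℝ) (X₀ : ℕ), 0 < δ → ∃ X₁ H₀ : ℕ, ∀ a : ℤ, a ≠ 0 → primeSum a ≤ κ →
      ∀ (M : ℤ) (H : ℕ), H₀ ≤ H → count M H (fun b => ¬ Oscillates T X₀ X₁ a b) ≤ δ * H) := by
  classical
  have h1 : ∀ (κ T δ : ℝ) (X₀ : ℕ), 0 < δ → ∃ X₁ H₀ : ℕ, ∀ a : ℤ, a ≠ 0 → primeSum a ≤ κ →
      ∀ (M : ℤ) (H : ℕ), H₀ ≤ H → count M H (fun b => ¬ Oscillates T X₀ X₁ a b) ≤ δ * H := by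
    intro κ T δ X₀ hδ
    obtain ⟨Y1, G1, h1⟩ := Pool.Agent.Y834.BF.osc (le_max_right κ 0) (Or.inl rfl) T
      (half_pos hδ) X₀
    obtain ⟨Y2, G2, h2⟩ := Pool.Agent.Y834.BF.osc (le_max_right κ 0) (Or.inr rfl) T
      (half_pos hδ) X₀
    refine ⟨max Y1 Y2, max G1 G2 + 1, fun a ha hκ M H hH => ?_⟩
    have hG1 : G1 ≤ H := (le_max_left G1 G2).trans (by omega)
    have hG2 : G2 ≤ H := (le_max_right G1 G2).trans (by omega)
    have hom : Pool.Agent.Y834.BF.oml a ≤ max κ 0 := le_trans hκ (le_max_left _ _)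
    have e1 := h1 a ha hom M H hG1
    have e2 := h2 a ha hom M H hG2
    rw [Pool.Agent.Y834.BF.iav_ind] at e1 e2
    have hHr : (0 : ℝ) < H := by
      have : 0 < H := by omega
      exact_mod_cast this
    rw [div_le_iff₀ hHr] at e1 e2
    have hsub : (Ioc M (M + H)).filter (fun b => ¬ Oscillates T X₀ (max Y1 Y2) a b) ⊆
        (Ioc M (M + H)).filter (fun n => ∀ x : ℕ, X₀ ≤ x → x ≤ Y1 →
          1 * Pool.Agent.Y834.BF.RR a n x ≤ T) ∪
        (Ioc M (M + H)).filter (fun n => ∀ x : ℕ, X₀ ≤ x → x ≤ Y2 →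
          -1 * Pool.Agent.Y834.BF.RR a n x ≤ T) := by
      intro b hb
      rw [mem_filter] at hb
      rw [mem_union, mem_filter, mem_filter]
      by_contra hcon
      rw [not_or] at hcon
      obtain ⟨c1, c2⟩ := hcon
      have d1 : ¬ (∀ x : ℕ, X₀ ≤ x → x ≤ Y1 → 1 * Pool.Agent.Y834.BF.RR a b x ≤ T) :=
        fun h => c1 ⟨hb.1, h⟩
      have d2 : ¬ (∀ x : ℕ, X₀ ≤ x → x ≤ Y2 → -1 * Pool.Agent.Y834.BF.RR a b x ≤ T) :=
        fun h => c2 ⟨hb.1, h⟩
      push Not at d1 d2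
      obtain ⟨x, hx1, hx2, hx3⟩ := d1
      obtain ⟨y, hy1, hy2, hy3⟩ := d2
      refine hb.2 ⟨⟨x, hx1, hx2.trans (le_max_left _ _), ?_⟩,
        ⟨y, hy1, hy2.trans (le_max_right _ _), ?_⟩⟩
      · rw [S_eq]
        linarith
      · rw [S_eq]
        linarith
    have hcard := (card_le_card hsub).trans (card_union_le _ _)
    have hcard' : count M H (fun b => ¬ Oscillates T X₀ (max Y1 Y2) a b) ≤
        (((Ioc M (M + H)).filter (fun n => ∀ x : ℕ, X₀ ≤ x → x ≤ Y1 →
          1 * Pool.Agent.Y834.BF.RR a n x ≤ T)).card : ℝ) +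
        (((Ioc M (M + H)).filter (fun n => ∀ x : ℕ, X₀ ≤ x → x ≤ Y2 →
          -1 * Pool.Agent.Y834.BF.RR a n x ≤ T)).card : ℝ) := by
      have key : ∀ u v w : ℕ, u ≤ v + w → (u : ℝ) ≤ v + w := fun u v w h => by exact_mod_cast h
      have h := key _ _ _ hcard
      unfold count
      convert h
    calc _ ≤ _ := hcard'
      _ ≤ δ / 2 * H + δ / 2 * H := add_le_add e1 e2
      _ = δ * H := by ring
  refine ⟨?_, h1⟩
  intro T δ X₀ hδ
  obtain ⟨C, hC0, hC⟩ := Pool.Agent.Y834.BF.bad_a2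
  obtain ⟨X₁, H₀, hX⟩ := h1 (2 * C / δ) T (δ / 2) X₀ (by positivity)
  refine ⟨X₁, H₀, fun A M H hH => ?_⟩
  have hcard := Pool.Agent.Y834.BF.card_nz A
  have hbad := hC A (2 * C / δ) (by positivity)
  change ∑ a ∈ Pool.Agent.Y834.BF.nz A, count M H (fun b => ¬ Oscillates T X₀ X₁ a b) ≤ _
  rw [← sum_filter_add_sum_filter_not (Pool.Agent.Y834.BF.nz A)
    (fun a => 2 * C / δ < Pool.Agent.Y834.BF.oml a)]
  have e1 : ∑ a ∈ (Pool.Agent.Y834.BF.nz A).filter (fun a => 2 * C / δ < Pool.Agent.Y834.BF.oml a),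
      count M H (fun b => ¬ Oscillates T X₀ X₁ a b) ≤ δ * A * H := by
    refine (sum_le_sum fun a _ => count_le M H _).trans ?_
    rw [sum_const, nsmul_eq_mul]
    refine mul_le_mul_of_nonneg_right (hbad.trans (le_of_eq ?_)) (by positivity)
    field_simp
  have e2 : ∑ a ∈ (Pool.Agent.Y834.BF.nz A).filter
      (fun a => ¬ (2 * C / δ < Pool.Agent.Y834.BF.oml a)),
      count M H (fun b => ¬ Oscillates T X₀ X₁ a b) ≤ δ * A * H := by
    calc _ ≤ ∑ a ∈ (Pool.Agent.Y834.BF.nz A).filter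
          (fun a => ¬ (2 * C / δ < Pool.Agent.Y834.BF.oml a)), (δ / 2 * H : ℝ) := by
          refine sum_le_sum fun a ha => ?_
          rw [mem_filter, Pool.Agent.Y834.BF.mem_nz] at ha
          exact hX a ha.1.1 (not_lt.1 ha.2) M H hH
      _ = (((Pool.Agent.Y834.BF.nz A).filter
          (fun a => ¬ (2 * C / δ < Pool.Agent.Y834.BF.oml a))).card : ℝ) * (δ / 2 * H) := by
          rw [sum_const, nsmul_eq_mul]
      _ ≤ ((2 * A : ℕ) : ℝ) * (δ / 2 * H) := by
          refine mul_le_mul_of_nonneg_right ?_ (by positivity)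
          rw [← hcard]
          exact_mod_cast card_le_card (filter_subset _ _)
      _ = δ * A * H := by
          push_cast
          ring
  calc _ ≤ δ * A * H + δ * A * H := add_le_add e1 e2
    _ = δ * (2 * A * H) := by ring

end Pool.Agent.Results.MP_ad1693_nt.Oscillation
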