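import Pool.Agent.Y686.TW.Final

/-!
# The original Birch and Swinnerton-Dyer asymptotic and sets of ratios of positive measure

`E : y² = x³ + a x + b`, `a, b ∈ ℤ`, is an elliptic curve over `ℚ`, `N_p` the number of points modulo `p`,
`P(x) = ∏_{p ≤ x, p ∤ 2Δ} N_p / p`, `S(x) = (log x)⁻¹ ∑_{p ≤ x, p ∤ 2Δ} a_p log p / p`, `F` the entire
continuation of the incomplete `L`-series, `r` its order at `s = 1`, `T = √2 e^{rγ} r! / |F^{(r)}(1)|`.

The following are equivalent to the original conjecture `P(x) ∼ T (log x)^r`: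

* `limsup P(h x) / P(x) ≤ 1` for each `h` in some set `H ⊂ (1, ∞)` of positive (outer) measure;
* `limsup P(x^λ) / P(x) ≤ λ^r` for each `λ` in some set `Λ ⊂ (1, ∞)` of positive measure;
* `P(x^λ) / P(x)` converges for each `λ` in some set `Λ ⊂ (1, ∞)` of positive measure;
* `liminf (S(h x) - S(x)) ≥ 0` for each `h` in a set of positive measure, or `liminf (S(x^λ) - S(x)) ≥ 0`
  for each `λ` in such a set.

No uniformity in `h` or `λ` is assumed, and no Riemann hypothesis; both follow. If `F` has no real zeros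
`> 1` the opposite one-sided conditions are equivalent as well. The same with boundedness in place of the
limits characterizes the exact order of magnitude `P(x) ≍ (log x)^r`.

Proof. One ratio gives linear growth of `log P(e^u)`, which excludes zeros with `Re s > 1` (starting modules
`TH949.TX`: a zero makes `log P(x) > x^c`). Then the deviation `f(u) = log P(e^u) - r log u - log T` is the
sum of a function in `L²(du)` and one tending to zero (starting modules `TH270.MS`), so that the sets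
`{u > U : |f(u)| > ε}` have small measure. By countable subadditivity one of the sets of ratios with
`f(u + h) ≤ f(u) + ε` for all `u ≥ u₀` has positive outer measure; so for every large `u` there are ratios
`h`, `k` in it with `|f(u + h)| ≤ ε`, `|f(u - k)| ≤ ε`, and `|f(u)| ≤ 2 ε`. For `S` we use
`S(e^u) = 1/2 - r - f(u) + o(1)`, where the convergence of `∑ (a_p² - p) / p²` is deduced from the
Rankin-Selberg method with a Tauberian theorem.
-/

set_option autoImplicit false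

namespace Pool.Agent.Results.MP_ad1693_nt.RatioSets

open Filter Topology Classical CongruenceSubgroup UpperHalfPlane MeasureTheory
open scoped MatrixGroups

/-- `N_p`: the number of points of `y² = x³ + a x + b` modulo `p`, with the point at infinity. -/
noncomputable def numPoints (a b : ℤ) (p : ℕ) : ℕ :=
  Nat.card {q : ZMod p × ZMod p // q.2 ^ 2 = q.1 ^ 3 + (a : ZMod p) * q.1 + (b : ZMod p)} + 1

/-- `p` is a prime that does not divide `2 Δ`, where `Δ = -4 a³ - 27 b²`. -/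
def Good (a b : ℤ) (p : ℕ) : Prop :=
  p.Prime ∧ ¬ ((p : ℤ) ∣ 2 * (-4 * a ^ 3 - 27 * b ^ 2))

/-- The original Birch and Swinnerton-Dyer product `P(x) = ∏_{p ≤ x, p ∤ 2Δ} N_p / p`. -/
noncomputable def P (a b : ℤ) (x : ℝ) : ℝ :=
  ∏ p ∈ (Finset.range (⌊x⌋₊ + 1)).filter (Good a b), ((numPoints a b p : ℝ) / p)

/-- `S(x) = (∑_{p ≤ x, p ∤ 2Δ} a_p log p / p) / log x`, `a_p = p + 1 - N_p`. -/
noncomputable def S (a b : ℤ) (x : ℝ) : ℝ :=
  (∑ p ∈ (Finset.range (⌊x⌋₊ + 1)).filter (Good a b),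
    ((p : ℝ) + 1 - numPoints a b p) * Real.log p / p) / Real.log x

/-- `F` is an entire function which for `Re s > 3/2` is the incomplete `L`-series
`∏_{p ∤ 2Δ} (1 - a_p p^{-s} + p^{1-2s})⁻¹`, `a_p = p + 1 - N_p`, of `y² = x³ + a x + b`. -/
def IsLSeries (a b : ℤ) (F : ℂ → ℂ) : Prop :=
  Differentiable ℂ F ∧ ∀ s : ℂ, (3 : ℝ) / 2 < s.re →
    HasProd (fun p : ℕ => if Good a b p then
      (1 - ((p : ℂ) + 1 - (numPoints a b p : ℂ)) * (p : ℂ) ^ (-s) + (p : ℂ) ^ (1 - 2 * s))⁻¹ else 1)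
      (F s)

/-- The `n`-th Fourier coefficient of `f`. -/
noncomputable def coef {N : ℕ} (f : CuspForm (Gamma0 N : Subgroup (GL (Fin 2) ℝ)) 2) (n : ℕ) : ℂ :=
  (qExpansion 1 f).coeff n

/-- `f ∈ S_2(Γ₀(N))` is the newform of the elliptic curve `E : y² = x³ + a x + b` of conductor `N`: the
Fourier coefficients `c(n)` of `f` are real with `c(1) = 1`, they satisfy the Hecke relations
`c(mn) = c(m) c(n)` for coprime `m`, `n` and `c(p^(j+2)) = c(p) c(p^(j+1)) - p c(p^j)` (without the last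
term if `p ∣ N`), `c(p) = a_p = p + 1 - N_p` for all primes `p ∤ 2Δ`, `|c(p)| ≤ 2 √p` for all
`p ∤ N` (Hasse) and `c(p) = 0, 1, -1` for `p ∣ N`. -/
structure IsNewformOf (a b : ℤ) (N : ℕ) (f : CuspForm (Gamma0 N : Subgroup (GL (Fin 2) ℝ)) 2) :
    Prop where
  one : coef f 1 = 1
  real : ∀ n, (coef f n).im = 0
  mul : ∀ m n : ℕ, Nat.Coprime m n → coef f (m * n) = coef f m * coef f n
  pow : ∀ p j : ℕ, p.Prime → coef f (p ^ (j + 2)) = coef f p * coef f (p ^ (j + 1)) -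
      (if p ∣ N then 0 else (p : ℂ) * coef f (p ^ j))
  points : ∀ p : ℕ, Good a b p → coef f p = (p : ℂ) + 1 - (numPoints a b p : ℂ)
  good : ∀ p : ℕ, p.Prime → ¬ p ∣ N → ‖coef f p‖ ≤ 2 * Real.sqrt p
  bad : ∀ p : ℕ, p.Prime → p ∣ N → coef f p = 0 ∨ coef f p = 1 ∨ coef f p = -1

/-- Goldfeld's constant `T = √2 e^{rγ} r! / |F^{(r)}(1)|` -/
noncomputable def T (F : ℂ → ℂ) (r : ℕ) : ℝ :=
  √2 * Real.exp (r * Real.eulerMascheroniConstant) * (r.factorial : ℝ) / ‖iteratedDeriv r F 1‖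

/-- A set of real numbers `> 1` of positive outer Lebesgue measure. -/
def Positive (H : Set ℝ) : Prop := (∀ h ∈ H, 1 < h) ∧ volume H ≠ 0

/-! ### Translation to the definitions of the imported files -/

variable {a b : ℤ}

theorem P_eq (x : ℝ) : P a b x = Pool.Agent.W263.BSD.bsdProduct a b x := by
  unfold P Pool.Agent.W263.BSD.bsdProduct numPoints Pool.Agent.W263.BSD.pointCount
  refine Finset.prod_congr rfl fun p _ => ?_
  push_cast
  rfl

theorem numPoints_sub (p : ℕ) : (p : ℂ) + 1 - (numPoints a b p : ℂ) =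
    (p : ℂ) - (Pool.Agent.W263.BSD.pointCount a b p : ℂ) := by
  unfold numPoints Pool.Agent.W263.BSD.pointCount
  push_cast
  ring

theorem numPoints_sub' (p : ℕ) : (p : ℝ) + 1 - (numPoints a b p : ℝ) =
    (p : ℝ) - (Pool.Agent.W263.BSD.pointCount a b p : ℝ) := by
  unfold numPoints Pool.Agent.W263.BSD.pointCount
  push_cast
  ring

theorem S_eq {x : ℝ} (hx : 0 < x) : S a b x = Pool.Agent.Y686.TW.ms a b x := by
  unfold S Pool.Agent.Y686.TW.ms Pool.Agent.Y686.TW.mes Pool.Agent.Y686.TW.wm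
  rw [Real.exp_log hx, Finset.sum_filter]
  congr 1
  refine Finset.sum_congr rfl fun p _ => ?_
  unfold Pool.Agent.Y686.TW.ap
  have h1 : Good a b p ↔ Pool.Agent.W263.BSD.GoodPrime a b p := Iff.rfl
  by_cases h : Good a b p
  · rw [if_pos h, if_pos (h1.1 h), numPoints_sub']
    ring
  · rw [if_neg h, if_neg (fun h2 => h (h1.2 h2)), mul_zero]

theorem isLSeries {F : ℂ → ℂ} (hF : IsLSeries a b F) :
    Pool.Agent.W263.BSD.IsLSeries a b F := by
  refine ⟨hF.1, fun s hs => ?_⟩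
  have h := hF.2 s hs
  simp only [numPoints_sub] at h
  exact h

theorem hecke {N : ℕ} {f : CuspForm (Gamma0 N : Subgroup (GL (Fin 2) ℝ)) 2}
    (hf : IsNewformOf a b N f) : Pool.Agent.TH941.Hecke f where
  one := hf.one
  real := hf.real
  mul := hf.mul
  pow := hf.pow
  good := hf.good
  bad := fun p hp h => by
    rcases hf.bad p hp h with h1 | h1 | h1
    · have h2 : ‖coef f p‖ ≤ 1 := by rw [h1]; simp
      exact h2
    · have h2 : ‖coef f p‖ ≤ 1 := by rw [h1]; simp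
      exact h2
    · have h2 : ‖coef f p‖ ≤ 1 := by rw [h1]; simp
      exact h2

theorem sets_iff {q : ℝ → Prop} :
    (∃ H : Set ℝ, Positive H ∧ ∀ h ∈ H, q h) ↔
      ∃ H ⊆ Set.Ioi (1 : ℝ), volume H ≠ 0 ∧ ∀ h ∈ H, q h :=
  ⟨fun ⟨H, h1, h2⟩ => ⟨H, h1.1, h1.2, h2⟩, fun ⟨H, h1, h2, h3⟩ => ⟨H, ⟨h1, h2⟩, h3⟩⟩

theorem sets_congr {q q' : ℝ → Prop} (h : ∀ h, 1 < h → (q h ↔ q' h)) :
    (∃ H ⊆ Set.Ioi (1 : ℝ), volume H ≠ 0 ∧ ∀ h ∈ H, q h) ↔
      ∃ H ⊆ Set.Ioi (1 : ℝ), volume H ≠ 0 ∧ ∀ h ∈ H, q' h :=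
  exists_congr fun _ => and_congr_right fun h1 => and_congr_right fun _ =>
    forall₂_congr fun k hk => h k (h1 hk)

theorem S_mul_iff {k : ℝ} (hk : 1 < k) {R : ℝ → ℝ → ℝ → Prop} :
    (∀ ε : ℝ, 0 < ε → ∀ᶠ x : ℝ in atTop, R (S a b x) (S a b (k * x)) ε) ↔
    (∀ ε : ℝ, 0 < ε → ∀ᶠ x : ℝ in atTop,
      R (Pool.Agent.Y686.TW.ms a b x) (Pool.Agent.Y686.TW.ms a b (k * x)) ε) := by
  refine forall₂_congr fun ε _ => eventually_congr ?_
  filter_upwards [eventually_gt_atTop 0] with x hx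
  rw [S_eq hx, S_eq (by positivity)]

theorem S_pow_iff {l : ℝ} {R : ℝ → ℝ → ℝ → Prop} :
    (∀ ε : ℝ, 0 < ε → ∀ᶠ x : ℝ in atTop, R (S a b x) (S a b (x ^ l)) ε) ↔
    (∀ ε : ℝ, 0 < ε → ∀ᶠ x : ℝ in atTop,
      R (Pool.Agent.Y686.TW.ms a b x) (Pool.Agent.Y686.TW.ms a b (x ^ l)) ε) := by
  refine forall₂_congr fun ε _ => eventually_congr ?_
  filter_upwards [eventually_gt_atTop 0] with x hx
  rw [S_eq hx, S_eq (Real.rpow_pos_of_pos hx l)]

/-- **The original asymptotic of Birch and Swinnerton-Dyer and ratios in a set of positive measure.** -/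
theorem result (a b : ℤ) (hΔ : 4 * a ^ 3 + 27 * b ^ 2 ≠ 0) (F : ℂ → ℂ) (hF : IsLSeries a b F)
    (N : ℕ) [NeZero N] (f : CuspForm (Gamma0 N : Subgroup (GL (Fin 2) ℝ)) 2)
    (hf : IsNewformOf a b N f) :
    ∃ r : ℕ, analyticOrderAt F 1 = r ∧ 0 < T F r ∧
      List.TFAE [
        ∃ C ρ : ℝ, C ≠ 0 ∧ Tendsto (fun x : ℝ => P a b x / Real.log x ^ ρ) atTop (𝓝 C),
        Tendsto (fun x : ℝ => P a b x / Real.log x ^ r) atTop (𝓝 (T F r)),
        Tendsto (S a b) atTop (𝓝 (1 / 2 - r)),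
        ∃ H : Set ℝ, Positive H ∧ ∀ h ∈ H, ∀ ε : ℝ, 0 < ε → ∀ᶠ x : ℝ in atTop,
          P a b (h * x) ≤ (1 + ε) * P a b x,
        ∃ L : Set ℝ, Positive L ∧ ∀ l ∈ L, ∀ ε : ℝ, 0 < ε → ∀ᶠ x : ℝ in atTop,
          P a b (x ^ l) ≤ (l ^ r + ε) * P a b x,
        ∃ L : Set ℝ, Positive L ∧ ∀ l ∈ L, ∃ c : ℝ,
          Tendsto (fun x : ℝ => P a b (x ^ l) / P a b x) atTop (𝓝 c),
        ∃ H : Set ℝ, Positive H ∧ ∀ h ∈ H, ∀ ε : ℝ, 0 < ε → ∀ᶠ x : ℝ in atTop,
          S a b x ≤ S a b (h * x) + ε,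
        ∃ L : Set ℝ, Positive L ∧ ∀ l ∈ L, ∀ ε : ℝ, 0 < ε → ∀ᶠ x : ℝ in atTop,
          S a b x ≤ S a b (x ^ l) + ε] ∧
      ((∀ s : ℝ, 1 < s → F s ≠ 0) → List.TFAE [
        Tendsto (fun x : ℝ => P a b x / Real.log x ^ r) atTop (𝓝 (T F r)),
        ∃ H : Set ℝ, Positive H ∧ ∀ h ∈ H, ∀ ε : ℝ, 0 < ε → ∀ᶠ x : ℝ in atTop,
          P a b x ≤ (1 + ε) * P a b (h * x),
        ∃ L : Set ℝ, Positive L ∧ ∀ l ∈ L, ∀ ε : ℝ, 0 < ε → ∀ᶠ x : ℝ in atTop,
          (l ^ r - ε) * P a b x ≤ P a b (x ^ l),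
        ∃ H : Set ℝ, Positive H ∧ ∀ h ∈ H, ∀ ε : ℝ, 0 < ε → ∀ᶠ x : ℝ in atTop,
          S a b (h * x) ≤ S a b x + ε,
        ∃ L : Set ℝ, Positive L ∧ ∀ l ∈ L, ∀ ε : ℝ, 0 < ε → ∀ᶠ x : ℝ in atTop,
          S a b (x ^ l) ≤ S a b x + ε]) ∧
      List.TFAE [
        ∃ c C : ℝ, 0 < c ∧ ∀ᶠ x : ℝ in atTop,
          c * Real.log x ^ r ≤ P a b x ∧ P a b x ≤ C * Real.log x ^ r,
        ∃ H : Set ℝ, Positive H ∧ ∀ h ∈ H, ∃ K : ℝ, ∀ᶠ x : ℝ in atTop,
          P a b (h * x) ≤ K * P a b x,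
        ∃ L : Set ℝ, Positive L ∧ ∀ l ∈ L, ∃ K : ℝ, ∀ᶠ x : ℝ in atTop,
          P a b (x ^ l) ≤ K * P a b x] := by
  have hF' := isLSeries hF
  obtain ⟨r, hr⟩ := Pool.Agent.W263.BSD.order_finite hF'
  have H := Pool.Agent.Y686.TW.full_of_newform (hecke hf) hΔ
    (fun p hp => (hf.points p hp).trans (numPoints_sub p)) hF' hr
  have hS : Tendsto (S a b) atTop (𝓝 (1 / 2 - r)) ↔
      Tendsto (Pool.Agent.Y686.TW.ms a b) atTop (𝓝 (1 / 2 - r)) := by
    refine tendsto_congr' ?_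
    filter_upwards [eventually_gt_atTop 0] with x hx
    exact S_eq hx
  refine ⟨r, hr, Pool.Agent.Y686.TW.TC_pos hF' hr, ?_, fun hreal => ?_, ?_⟩
  · have h := Pool.Agent.Y686.TW.full_tfae H
    simp only [sets_iff, P_eq, hS]
    rw [sets_congr (fun k hk => S_mul_iff hk (R := fun u v ε => u ≤ v + ε)),
      sets_congr (fun l _ => S_pow_iff (R := fun u v ε => u ≤ v + ε))]
    exact h
  · have h := Pool.Agent.Y686.TW.lower_tfae H hreal
    simp only [sets_iff, P_eq]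
    rw [sets_congr (fun k hk => S_mul_iff hk (R := fun u v ε => v ≤ u + ε)),
      sets_congr (fun l _ => S_pow_iff (R := fun u v ε => v ≤ u + ε))]
    exact h
  · have h := Pool.Agent.Y686.TW.order_tfae' H.toHyp
    simp only [sets_iff, P_eq]
    exact h

end Pool.Agent.Results.MP_ad1693_nt.RatioSets
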